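import Mathlib
import Pool.Agent.E8helper81.PK.Final

/-! For every `0 < α ≤ 1` some peak set for the analytic Lipschitz class `A_α` is not a zero set
for the Gevrey class `G_α`. -/

set_option autoImplicit false

namespace Pool.Agent.Results.MP_345ce5_an.PeakNotZeroH81

open Metric Pool.Agent.E8helper81.PK

/-- For every `α` in `(0, 1]` there is a closed subset `E` of the unit circle, countable and with
`1` as its only possible accumulation point, which is a peak set for `A_α` and not a zero set for
`G_α`. -/
theorem result (α : ℝ) (h0 : 0 < α) (h1 : α ≤ 1) :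
    ∃ E : Set ℂ, E ∈ PeakSets α ∧ E ∉ ZeroSets α ∧ E.Countable ∧
      ∀ ε : ℝ, 0 < ε → (E \ ball 1 ε).Finite := by
  rcases h1.lt_or_eq with h | rfl
  · exact main_lt h0 h
  · exact main_one

end Pool.Agent.Results.MP_345ce5_an.PeakNotZeroH81
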